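import Mathlib
import Pool.Agent.ZPK.StmtsD

set_option autoImplicit false

/-! Squad ZPK, row ZRS: the sum over all primes near `s = 1`. -/

namespace Pool.Agent.ZPK.H2

open Filter Topology

theorem neg_log_le {x : ℝ} (h0 : 0 ≤ x) (h1 : x ≤ 1 / 2) :
    0 ≤ -Real.log (1 - x) ∧ -Real.log (1 - x) ≤ x + 2 * x ^ 2 := by
  have hp : (0 : ℝ) < 1 - x := by linarith
  constructor
  · have := Real.log_nonpos hp.le (by linarith)
    linarith
  · have h2 := Real.one_sub_inv_le_log_of_pos hp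
    have h3 : (1 - x)⁻¹ ≤ 1 + x + 2 * x ^ 2 := by
      rw [inv_eq_one_div, div_le_iff₀ hp]
      nlinarith [mul_nonneg h0 h0, mul_nonneg (mul_nonneg h0 h0) (by linarith : (0:ℝ) ≤ 1 - 2 * x)]
    linarith

theorem prime_pow_le {s : ℝ} (hs : 1 < s) (p : Nat.Primes) :
    0 ≤ ((p : ℕ) : ℝ) ^ (-s) ∧ ((p : ℕ) : ℝ) ^ (-s) ≤ 1 / 2 := by
  have hp : (2 : ℝ) ≤ ((p : ℕ) : ℝ) := by exact_mod_cast p.2.two_le
  refine ⟨by positivity, ?_⟩
  calc ((p : ℕ) : ℝ) ^ (-s) ≤ ((p : ℕ) : ℝ) ^ (-1 : ℝ) :=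
        Real.rpow_le_rpow_of_exponent_le (by linarith) (by linarith)
    _ = (((p : ℕ) : ℝ))⁻¹ := Real.rpow_neg_one _
    _ ≤ 1 / 2 := by
        rw [inv_eq_one_div]
        exact one_div_le_one_div_of_le (by norm_num) hp

theorem summ {s : ℝ} (hs : 1 < s) : Summable (fun p : Nat.Primes => ((p : ℕ) : ℝ) ^ (-s)) :=
  Nat.Primes.summable_rpow.2 (by linarith)

theorem sq_le {s : ℝ} (hs : 1 < s) (p : Nat.Primes) :
    (((p : ℕ) : ℝ) ^ (-s)) ^ 2 ≤ ((p : ℕ) : ℝ) ^ (-2 : ℝ) := by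
  have hp : (2 : ℝ) ≤ ((p : ℕ) : ℝ) := by exact_mod_cast p.2.two_le
  rw [← Real.rpow_natCast, ← Real.rpow_mul (by linarith)]
  apply Real.rpow_le_rpow_of_exponent_le (by linarith)
  push_cast
  linarith

theorem norm_zeta {s : ℝ} (hs : 1 < s) :
    ‖riemannZeta (s : ℂ)‖ =
      Real.exp (∑' p : Nat.Primes, -Real.log (1 - ((p : ℕ) : ℝ) ^ (-s))) := by
  have h := riemannZeta_eulerProduct_exp_log (s := (s : ℂ)) (by simpa using hs)
  rw [← h]
  have e : ∀ p : Nat.Primes, -Complex.log (1 - ((p : ℕ) : ℂ) ^ (-(s : ℂ))) =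
      ((-Real.log (1 - ((p : ℕ) : ℝ) ^ (-s)) : ℝ) : ℂ) := by
    intro p
    have h1 := prime_pow_le hs p
    rw [Complex.ofReal_neg, Complex.ofReal_log (by linarith), Complex.ofReal_sub,
      Complex.ofReal_cpow (by positivity)]
    push_cast
    rfl
  rw [tsum_congr e, ← Complex.ofReal_tsum, ← Complex.ofReal_exp, Complex.norm_real,
    Real.norm_eq_abs, abs_of_pos (Real.exp_pos _)]

theorem zrs : Pool.Agent.ZPK.ZrsStmt := by
  -- near `1`
  have hres := riemannZeta_residue_one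
  have h1 : ∀ᶠ z in 𝓝[≠] (1 : ℂ), (1 : ℝ) / 2 < ‖(z - 1) * riemannZeta z‖ := by
    have h2 : Tendsto (fun z => ‖(z - 1) * riemannZeta z‖) (𝓝[≠] (1 : ℂ)) (𝓝 ‖(1 : ℂ)‖) :=
      hres.norm
    rw [norm_one] at h2
    exact h2.eventually (lt_mem_nhds (by norm_num))
  rw [eventually_nhdsWithin_iff, Metric.eventually_nhds_iff] at h1
  obtain ⟨δ, hδ, h1⟩ := h1
  refine ⟨Real.log 2 + 2 * ∑' p : Nat.Primes, ((p : ℕ) : ℝ) ^ (-2 : ℝ), 1 + δ, by linarith, ?_⟩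
  intro s hs hs2
  refine ⟨summ hs, ?_⟩
  have h2 : (1 : ℝ) / 2 < ‖((s : ℂ) - 1) * riemannZeta (s : ℂ)‖ := by
    apply h1
    · rw [dist_eq_norm]
      have : (s : ℂ) - 1 = ((s - 1 : ℝ) : ℂ) := by push_cast; rfl
      rw [this, Complex.norm_real, Real.norm_eq_abs, abs_of_pos (by linarith)]
      linarith
    · intro h
      have h' : (s : ℂ) = 1 := h
      have : s = 1 := by exact_mod_cast h'
      linarith
  rw [norm_mul, norm_zeta hs] at h2
  have h3 : ‖(s : ℂ) - 1‖ = s - 1 := by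
    have : (s : ℂ) - 1 = ((s - 1 : ℝ) : ℂ) := by push_cast; rfl
    rw [this, Complex.norm_real, Real.norm_eq_abs, abs_of_pos (by linarith)]
  rw [h3] at h2
  set T := ∑' p : Nat.Primes, -Real.log (1 - ((p : ℕ) : ℝ) ^ (-s)) with hT
  have h4 : Real.log (1 / (s - 1)) - Real.log 2 ≤ T := by
    have hpos : 0 < s - 1 := by linarith
    rw [← Real.log_div (by positivity) (by norm_num)]
    have h5 : 1 / (s - 1) / 2 ≤ Real.exp T := by
      rw [div_div, div_le_iff₀ (by positivity)]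
      nlinarith
    calc Real.log (1 / (s - 1) / 2) ≤ Real.log (Real.exp T) :=
          Real.log_le_log (by positivity) h5
      _ = T := Real.log_exp T
  have hsq : Summable (fun p : Nat.Primes => ((p : ℕ) : ℝ) ^ (-2 : ℝ)) :=
    Nat.Primes.summable_rpow.2 (by norm_num)
  have hb : Summable (fun p : Nat.Primes => ((p : ℕ) : ℝ) ^ (-s) +
      2 * ((p : ℕ) : ℝ) ^ (-2 : ℝ)) := (summ hs).add (hsq.mul_left 2)
  have hle : ∀ p : Nat.Primes, -Real.log (1 - ((p : ℕ) : ℝ) ^ (-s)) ≤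
      ((p : ℕ) : ℝ) ^ (-s) + 2 * ((p : ℕ) : ℝ) ^ (-2 : ℝ) := by
    intro p
    have h5 := (neg_log_le (prime_pow_le hs p).1 (prime_pow_le hs p).2).2
    have h6 := sq_le hs p
    linarith
  have hsl : Summable (fun p : Nat.Primes => -Real.log (1 - ((p : ℕ) : ℝ) ^ (-s))) :=
    Summable.of_nonneg_of_le
      (fun p => (neg_log_le (prime_pow_le hs p).1 (prime_pow_le hs p).2).1) hle hb
  have h5 : T ≤ ∑' p : Nat.Primes, (((p : ℕ) : ℝ) ^ (-s) + 2 * ((p : ℕ) : ℝ) ^ (-2 : ℝ)) :=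
    hsl.tsum_le_tsum hle hb
  rw [(summ hs).tsum_add (hsq.mul_left 2), tsum_mul_left] at h5
  linarith

end Pool.Agent.ZPK.H2
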